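import Pool.Agent.Helper92.PU.St

/-!
# Project PU (MP_ad0dc2_nt), module TC: Thue equations with `d + 1` well separated solutions
-/

set_option autoImplicit false

open Finset

namespace Pool.Agent.Helper51.PU

open Pool.Agent.Helper92.PU Pool.Agent.Helper92.PW

/-! ### binary forms -/

private theorem bf_mul (d : ℕ) (γ : ℕ → ℝ) (c e : ℝ) :
    ∃ γ' : ℕ → ℝ, ∀ s t, bf (d + 1) γ' s t = (c * s + e * t) * bf d γ s t := by
  refine ⟨fun i => (if i = 0 then 0 else c * γ (i - 1)) + (if i ≤ d then e * γ i else 0), fun s t => ?_⟩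
  have h1 : ∑ i ∈ range (d + 1 + 1), (if i = 0 then 0 else c * γ (i - 1)) * s ^ i * t ^ (d + 1 - i) =
      c * s * ∑ i ∈ range (d + 1), γ i * s ^ i * t ^ (d - i) := by
    rw [sum_range_succ', mul_sum]
    simp only [if_true, zero_mul, add_zero]
    refine sum_congr rfl fun i _ => ?_
    rw [if_neg (Nat.succ_ne_zero i), Nat.add_sub_cancel, Nat.add_sub_add_right, pow_succ]
    ring
  have h2 : ∑ i ∈ range (d + 1 + 1), (if i ≤ d then e * γ i else 0) * s ^ i * t ^ (d + 1 - i) =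
      e * t * ∑ i ∈ range (d + 1), γ i * s ^ i * t ^ (d - i) := by
    rw [sum_range_succ, mul_sum, if_neg (by omega)]
    simp only [zero_mul, add_zero]
    refine sum_congr rfl fun i hi => ?_
    have hi' : i ≤ d := by
      have := mem_range.1 hi
      omega
    rw [if_pos hi', show d + 1 - i = (d - i) + 1 by omega, pow_succ]
    ring
  unfold bf
  rw [add_mul, ← h1, ← h2, ← sum_add_distrib]
  refine sum_congr rfl fun i _ => ?_
  ring

private theorem bf_lin (d : ℕ) (γ γ' : ℕ → ℝ) (k s t : ℝ) :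
    bf d (fun i => γ i + k * γ' i) s t = bf d γ s t + k * bf d γ' s t := by
  unfold bf
  rw [mul_sum, ← sum_add_distrib]
  refine sum_congr rfl fun i _ => ?_
  ring

private theorem bf_succ (d : ℕ) (g : ℕ → ℝ) (u v : ℝ) : bf (d + 1) g u v = v * bf d g u v + g (d + 1) * u ^ (d + 1) := by
  unfold bf
  rw [sum_range_succ, mul_sum, Nat.sub_self, pow_zero, mul_one]
  congr 1
  refine sum_congr rfl fun i hi => ?_
  have hi' : i ≤ d := by
    have := mem_range.1 hi
    omega
  rw [show d + 1 - i = (d - i) + 1 by omega, pow_succ]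
  ring

private theorem bf_top (d : ℕ) (u v : ℝ) : bf d (fun i => if i = d then 1 else 0) u v = u ^ d := by
  unfold bf
  rw [sum_range_succ, sum_eq_zero]
  · simp
  · intro i hi
    have := mem_range.1 hi
    have h1 : i ≠ d := by omega
    simp [h1]

/-- forms of degree `d` are closed under linear substitutions -/
private theorem bf_sub (a b c e : ℝ) : ∀ (d : ℕ) (g : ℕ → ℝ),
    ∃ γ : ℕ → ℝ, ∀ s t, bf d γ s t = bf d g (a * s + b * t) (c * s + e * t) := by
  intro d
  induction d with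
  | zero =>
    intro g
    exact ⟨g, fun s t => by simp [bf]⟩
  | succ d ih =>
    intro g
    obtain ⟨γ1, h1⟩ := ih g
    obtain ⟨γ2, h2⟩ := ih (fun i => if i = d then 1 else 0)
    obtain ⟨δ1, k1⟩ := bf_mul d γ1 c e
    obtain ⟨δ2, k2⟩ := bf_mul d γ2 a b
    refine ⟨fun i => δ1 i + g (d + 1) * δ2 i, fun s t => ?_⟩
    rw [bf_lin, k1, k2, h1, h2, bf_top, bf_succ]
    ring

private theorem bf_bound (d : ℕ) (γ : ℕ → ℝ) (G r s t : ℝ) (hG : 0 ≤ G) (hγ : ∀ l ≤ d, |γ l| ≤ G)
    (hs : |s| ≤ r) (ht : |t| ≤ r) : |bf d γ s t| ≤ (d + 1) * G * r ^ d := by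
  have hr : 0 ≤ r := (abs_nonneg s).trans hs
  unfold bf
  refine (abs_sum_le_sum_abs _ _).trans ?_
  have h1 : ∀ i ∈ range (d + 1), |γ i * s ^ i * t ^ (d - i)| ≤ G * r ^ d := by
    intro i hi
    have hi' : i ≤ d := by
      have := mem_range.1 hi
      omega
    rw [abs_mul, abs_mul, abs_pow, abs_pow]
    have e1 : r ^ d = r ^ i * r ^ (d - i) := by
      rw [← pow_add]
      congr 1
      omega
    rw [e1, ← mul_assoc]
    exact mul_le_mul (mul_le_mul (hγ i hi') (pow_le_pow_left₀ (abs_nonneg s) hs i) (by positivity) hG)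
      (pow_le_pow_left₀ (abs_nonneg t) ht _) (by positivity) (by positivity)
  refine (sum_le_sum h1).trans (le_of_eq ?_)
  rw [sum_const, card_range, nsmul_eq_mul]
  push_cast
  ring

/-- a form which vanishes at `(i, 1)`, `i = 0, ..., d`, is `0` -/
private theorem bf_zero (d : ℕ) (γ : ℕ → ℝ) (h : ∀ i : ℕ, i ≤ d → bf d γ i 1 = 0) (s t : ℝ) : bf d γ s t = 0 := by
  have h1 : (fun i : Fin (d + 1) => γ i) = 0 := by
    apply Matrix.eq_zero_of_forall_index_sum_pow_mul_eq_zero (f := fun i : Fin (d + 1) => ((i : ℕ) : ℝ))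
    · intro i j hij
      exact Fin.ext (Nat.cast_injective hij)
    · intro j
      have h2 := h j (by omega)
      unfold bf at h2
      rw [← h2, Finset.sum_range]
      refine sum_congr rfl fun i _ => ?_
      simp only [one_pow, mul_one]
      ring
  unfold bf
  refine sum_eq_zero fun i hi => ?_
  have h2 := congrFun h1 ⟨i, mem_range.1 hi⟩
  simp only [Pi.zero_apply] at h2
  rw [h2]
  ring

/-- TC. -/
theorem hTC (hTV : StTV) : StTC := by
  intro d L hd hL
  obtain ⟨K₀, hK₀, htv⟩ := hTV d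
  refine ⟨50 * (d + 1) ^ 3 * L * K₀, ?_, ?_⟩
  · have h1 : (1 : ℝ) ≤ (d + 1) ^ 3 := one_le_pow₀ (by linarith [(Nat.cast_nonneg d : (0 : ℝ) ≤ d)])
    have h2 : (1 : ℝ) ≤ L := by exact_mod_cast hL
    have h3 : (1 : ℝ) ≤ (d + 1) ^ 3 * L := one_le_mul_of_one_le_of_one_le h1 h2
    have h4 : (1 : ℝ) ≤ (d + 1) ^ 3 * L * K₀ := one_le_mul_of_one_le_of_one_le h3 hK₀
    nlinarith
  intro m σ g W w1 w2 hm hσ hσ1 hW hw1 hw2 hD hmax hsep
  obtain ⟨p, hp, hps⟩ := hsep
  set D : ℝ := (dt2 w1 w2 : ℝ) with hDdef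
  have hD0 : D ≠ 0 := by
    rw [hDdef]
    exact_mod_cast hD
  set os : ℤ × ℤ → ℝ := fun w => (dt2 w w2 : ℝ) / D with hos
  set ot : ℤ × ℤ → ℝ := fun w => (dt2 w1 w : ℝ) / D with hot
  -- the coordinates
  have hc1 : ∀ w : ℤ × ℤ, (w1.1 : ℝ) * os w + (w2.1 : ℝ) * ot w = w.1 := by
    intro w
    simp only [hos, hot]
    field_simp
    simp only [hDdef, dt2]
    push_cast
    ring
  have hc2 : ∀ w : ℤ × ℤ, (w1.2 : ℝ) * os w + (w2.2 : ℝ) * ot w = w.2 := by
    intro w
    simp only [hos, hot]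
    field_simp
    simp only [hDdef, dt2]
    push_cast
    ring
  have hcrr : ∀ w w' : ℤ × ℤ, os w * ot w' - ot w * os w' = (dt2 w w' : ℝ) / D := by
    intro w w'
    simp only [hos, hot]
    field_simp
    simp only [hDdef, dt2]
    push_cast
    ring
  obtain ⟨γ, hγ⟩ := bf_sub w1.1 w2.1 w1.2 w2.2 d g
  have hG : ∀ w : ℤ × ℤ, bf d γ (os w) (ot w) = bf d g w.1 w.2 := by
    intro w
    rw [hγ, hc1, hc2]
  have hle : ∀ w ∈ W, |os w| ≤ 1 ∧ |ot w| ≤ 1 := by
    intro w hw
    have hDp : 0 < |D| := abs_pos.2 hD0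
    have e1 : |(dt2 w w2 : ℝ)| ≤ |D| := by
      have := hmax w hw w2 hw2
      rw [hDdef]
      exact_mod_cast this
    have e2 : |(dt2 w1 w : ℝ)| ≤ |D| := by
      have := hmax w1 hw1 w hw
      rw [hDdef]
      exact_mod_cast this
    simp only [hos, hot, abs_div]
    exact ⟨(div_le_one hDp).2 e1, (div_le_one hDp).2 e2⟩
  have hm1 : 1 ≤ |m| := by
    obtain ⟨n, hn⟩ := hW.int w1 (AddSubgroup.subset_closure hw1)
    rw [hW.val w1 hw1] at hn
    have hn0 : n ≠ 0 := by
      rintro rfl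
      exact hm (by simpa using hn)
    rw [hn]
    exact_mod_cast Int.one_le_abs hn0
  -- the bound for the coefficients
  set Γ : ℝ := K₀ * |m| / σ ^ (d * (d + 1)) with hΓ
  have hγb : ∀ l ≤ d, |γ l| ≤ Γ := by
    refine htv σ |m| (fun j => (os (p j), ot (p j))) γ hσ hσ1 (abs_nonneg m) (fun j => hle _ (hp j)) ?_ ?_
    · intro i j hij
      have h1 := hps i j hij
      unfold crr
      simp only
      rw [hcrr, abs_div, le_div_iff₀ (abs_pos.2 hD0)]
      exact h1
    · intro j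
      simp only
      rw [hG, hW.val _ (hp j)]
  have hσp : 0 < σ ^ (d * (d + 1)) := by positivity
  have hΓ1 : 1 ≤ Γ := by
    rw [hΓ, le_div_iff₀ hσp, one_mul]
    have h1 : σ ^ (d * (d + 1)) ≤ 1 := pow_le_one₀ hσ.le hσ1
    have h2 : 1 ≤ K₀ * |m| := one_le_mul_of_one_le_of_one_le hK₀ hm1
    linarith
  -- the cells
  set n1 : ℝ := (d : ℝ) + 1 with hn1
  have hn11 : 1 ≤ n1 := by
    rw [hn1]
    linarith [(Nat.cast_nonneg d : (0 : ℝ) ≤ d)]
  set S : ℝ := Real.sqrt (2 * n1 * Γ) with hS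
  have hS2 : S ^ 2 = 2 * n1 * Γ := Real.sq_sqrt (by positivity)
  have hS1 : 1 ≤ S := by
    rw [hS]
    apply Real.one_le_sqrt.2
    nlinarith
  set R : ℝ := n1 * S with hR
  have hR1 : 1 ≤ R := one_le_mul_of_one_le_of_one_le hn11 hS1
  have hR0 : 0 < R := by linarith
  set φ : ℤ × ℤ → ℤ × ℤ := fun w => (⌊os w * R⌋, ⌊ot w * R⌋) with hφ
  set N : ℕ := ⌈R⌉₊ with hN
  have hmaps : ∀ w ∈ W, φ w ∈ (Icc (-(N : ℤ)) N ×ˢ Icc (-(N : ℤ)) N : Finset (ℤ × ℤ)) := by
    have key : ∀ x : ℝ, |x| ≤ 1 → -(N : ℤ) ≤ ⌊x * R⌋ ∧ ⌊x * R⌋ ≤ (N : ℤ) := by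
      intro x hx
      have hRN : R ≤ N := Nat.le_ceil R
      obtain ⟨a1, a2⟩ := abs_le.1 hx
      constructor
      · apply Int.le_floor.2
        push_cast
        nlinarith
      · have h1 : ((⌊x * R⌋ : ℤ) : ℝ) ≤ x * R := Int.floor_le _
        have h2 : x * R ≤ N := by nlinarith
        exact_mod_cast h1.trans h2
    intro w hw
    obtain ⟨a, b⟩ := hle w hw
    simp only [hφ, mem_product, mem_Icc]
    exact ⟨key _ a, key _ b⟩
  -- the points of one cell are on a line
  have hpar : ∀ w ∈ W, ∀ w' ∈ W, ∀ w'' ∈ W, φ w = φ w' → φ w'' = φ w' → dt2 (w - w') (w'' - w') = 0 := by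
    intro w hw w' hw' w'' hw'' h1 h2
    by_contra hne
    have hcell : ∀ u ∈ W, φ u = φ w' → |os (u - w')| ≤ 1 / R ∧ |ot (u - w')| ≤ 1 / R := by
      intro u _ hu
      have h3 : ⌊os u * R⌋ = ⌊os w' * R⌋ := congrArg Prod.fst hu
      have h4 : ⌊ot u * R⌋ = ⌊ot w' * R⌋ := congrArg Prod.snd hu
      have h5 := (Int.abs_sub_lt_one_of_floor_eq_floor h3).le
      have h6 := (Int.abs_sub_lt_one_of_floor_eq_floor h4).le
      have e1 : os (u - w') = os u - os w' := by
        simp only [hos, dt2, Prod.fst_sub, Prod.snd_sub]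
        push_cast
        ring
      have e2 : ot (u - w') = ot u - ot w' := by
        simp only [hot, dt2, Prod.fst_sub, Prod.snd_sub]
        push_cast
        ring
      rw [e1, e2, le_div_iff₀ hR0, le_div_iff₀ hR0]
      rw [← sub_mul, abs_mul, abs_of_pos hR0] at h5 h6
      exact ⟨h5, h6⟩
    obtain ⟨v1, v2⟩ := hcell w hw h1
    obtain ⟨u1, u2⟩ := hcell w'' hw'' h2
    set v := w - w' with hv
    set v' := w'' - w' with hv'
    obtain ⟨γ', hγ'⟩ := bf_sub v.1 v'.1 v.2 v'.2 d g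
    have hz : ∀ i : ℕ, i ≤ d → bf d γ' i 1 = 0 := by
      intro i hi
      have e0 : bf d γ' i 1 = bf d g (((i : ℤ) • v + v').1 : ℤ) (((i : ℤ) • v + v').2 : ℤ) := by
        rw [hγ']
        congr 1
        · simp only [Prod.fst_add, Prod.smul_fst, smul_eq_mul]
          push_cast
          ring
        · simp only [Prod.snd_add, Prod.smul_snd, smul_eq_mul]
          push_cast
          ring
      have hmem : (i : ℤ) • v + v' ∈ AddSubgroup.closure (W : Set (ℤ × ℤ)) := by
        have a0 := AddSubgroup.subset_closure (G := ℤ × ℤ) (k := (W : Set (ℤ × ℤ))) hw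
        have a1 := AddSubgroup.subset_closure (G := ℤ × ℤ) (k := (W : Set (ℤ × ℤ))) hw'
        have a2 := AddSubgroup.subset_closure (G := ℤ × ℤ) (k := (W : Set (ℤ × ℤ))) hw''
        exact AddSubgroup.add_mem _ (AddSubgroup.zsmul_mem _ (AddSubgroup.sub_mem _ a0 a1) _)
          (AddSubgroup.sub_mem _ a2 a1)
      obtain ⟨n, hn⟩ := hW.int _ hmem
      have hb : |bf d g (((i : ℤ) • v + v').1 : ℤ) (((i : ℤ) • v + v').2 : ℤ)| ≤ 1 / 2 := by
        rw [← hG]
        have hi1 : (i : ℝ) + 1 ≤ n1 := by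
          rw [hn1]
          have : (i : ℝ) ≤ d := by exact_mod_cast hi
          linarith
        have e1 : os ((i : ℤ) • v + v') = i * os v + os v' := by
          simp only [hos, dt2, Prod.fst_add, Prod.snd_add, Prod.smul_fst, Prod.smul_snd, smul_eq_mul]
          push_cast
          ring
        have e2 : ot ((i : ℤ) • v + v') = i * ot v + ot v' := by
          simp only [hot, dt2, Prod.fst_add, Prod.snd_add, Prod.smul_fst, Prod.smul_snd, smul_eq_mul]
          push_cast
          ring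
        have hi0 : (0 : ℝ) ≤ i := Nat.cast_nonneg i
        have b1 : |os ((i : ℤ) • v + v')| ≤ 1 / S := by
          rw [e1]
          refine (abs_add_le _ _).trans ?_
          rw [abs_mul, abs_of_nonneg hi0]
          have : (1 : ℝ) / S = n1 * (1 / R) := by
            rw [hR]
            field_simp
          rw [this]
          nlinarith [mul_le_mul_of_nonneg_left v1 hi0, abs_nonneg (os v'), (by positivity : (0 : ℝ) ≤ 1 / R)]
        have b2 : |ot ((i : ℤ) • v + v')| ≤ 1 / S := by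
          rw [e2]
          refine (abs_add_le _ _).trans ?_
          rw [abs_mul, abs_of_nonneg hi0]
          have : (1 : ℝ) / S = n1 * (1 / R) := by
            rw [hR]
            field_simp
          rw [this]
          nlinarith [mul_le_mul_of_nonneg_left v2 hi0, abs_nonneg (ot v'), (by positivity : (0 : ℝ) ≤ 1 / R)]
        refine (bf_bound d γ Γ (1 / S) _ _ (by linarith) hγb b1 b2).trans ?_
        have h7 : (1 / S) ^ d ≤ (1 / S) ^ 2 := by
          apply pow_le_pow_of_le_one (by positivity) _ hd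
          rw [div_le_one (by linarith)]
          exact hS1
        have h8 : n1 * Γ * (1 / S) ^ 2 = 1 / 2 := by
          rw [div_pow, one_pow, hS2]
          field_simp
        calc ((d : ℝ) + 1) * Γ * (1 / S) ^ d ≤ n1 * Γ * (1 / S) ^ 2 :=
              mul_le_mul_of_nonneg_left h7 (by positivity)
          _ = 1 / 2 := h8
      rw [hn] at hb
      have hn0 : n = 0 := by
        have h9 : |(n : ℝ)| < 1 := by linarith
        have h10 : |n| < 1 := by exact_mod_cast h9
        exact Int.abs_lt_one_iff.1 h10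
      rw [e0, hn, hn0]
      simp
    have hzero := bf_zero d γ' hz
    -- `w1` is a combination of `v` and `v'`
    have hvv : (dt2 v v' : ℝ) ≠ 0 := by exact_mod_cast hne
    have h3 := hzero ((dt2 w1 v' : ℝ) / dt2 v v') ((dt2 v w1 : ℝ) / dt2 v v')
    rw [hγ'] at h3
    have e3 : (v.1 : ℝ) * ((dt2 w1 v' : ℝ) / dt2 v v') + v'.1 * ((dt2 v w1 : ℝ) / dt2 v v') = w1.1 := by
      field_simp
      simp only [dt2]
      push_cast
      ring
    have e4 : (v.2 : ℝ) * ((dt2 w1 v' : ℝ) / dt2 v v') + v'.2 * ((dt2 v w1 : ℝ) / dt2 v v') = w1.2 := by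
      field_simp
      simp only [dt2]
      push_cast
      ring
    rw [e3, e4, hW.val w1 hw1] at h3
    exact hm h3
  have hfib : ∀ c ∈ (Icc (-(N : ℤ)) N ×ˢ Icc (-(N : ℤ)) N : Finset (ℤ × ℤ)), (W.filter fun w => φ w = c).card ≤ L := by
    intro c _
    by_cases h1 : (W.filter fun w => φ w = c).card ≤ 1
    · omega
    obtain ⟨w, hw, w', hw', hne⟩ := Finset.one_lt_card.1 (not_le.1 h1)
    rw [mem_filter] at hw hw'
    refine (card_le_card ?_).trans (hW.lin (-(w - w').2) ((w - w').1) (dt2 (w - w') w') ?_)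
    · intro u hu
      rw [mem_filter] at hu ⊢
      refine ⟨hu.1, ?_⟩
      have h2 := hpar w hw.1 w' hw'.1 u hu.1 (hw.2.trans hw'.2.symm) (hu.2.trans hw'.2.symm)
      unfold dt2 at h2 ⊢
      simp only [Prod.fst_sub, Prod.snd_sub] at h2 ⊢
      linarith
    · by_contra h2
      push Not at h2
      apply hne
      obtain ⟨h3, h4⟩ := h2
      simp only [Prod.fst_sub, Prod.snd_sub] at h3 h4
      exact Prod.ext (by linarith) (by linarith)
  have hcard : W.card ≤ L * ((2 * N + 1) * (2 * N + 1)) := by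
    have h1 := Finset.card_le_mul_card_image_of_maps_to hmaps L hfib
    refine h1.trans (le_of_eq ?_)
    rw [card_product]
    simp only [Int.card_Icc]
    have : ((N : ℤ) + 1 - -(N : ℤ)).toNat = 2 * N + 1 := by omega
    rw [this]
  have hNR : (N : ℝ) ≤ 2 * R := by
    have h1 : (N : ℝ) < R + 1 := Nat.ceil_lt_add_one hR0.le
    linarith
  have h1 : (W.card : ℝ) ≤ L * ((2 * N + 1) * (2 * N + 1)) := by exact_mod_cast hcard
  have hN0 : (0 : ℝ) ≤ N := Nat.cast_nonneg N
  have h2 : (2 * (N : ℝ) + 1) * (2 * N + 1) ≤ (5 * R) * (5 * R) := by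
    apply mul_le_mul <;> linarith
  have hL0 : (0 : ℝ) ≤ L := Nat.cast_nonneg L
  have h3 : (5 * R) * (5 * R) = 50 * n1 ^ 3 * Γ := by
    have : (5 * R) * (5 * R) = 25 * n1 ^ 2 * S ^ 2 := by rw [hR]; ring
    rw [this, hS2]
    ring
  calc (W.card : ℝ) ≤ L * ((2 * N + 1) * (2 * N + 1)) := h1
    _ ≤ L * ((5 * R) * (5 * R)) := mul_le_mul_of_nonneg_left h2 hL0
    _ = 50 * n1 ^ 3 * L * K₀ * |m| / σ ^ (d * (d + 1)) := by rw [h3, hΓ]; ring

end Pool.Agent.Helper51.PU
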